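import Pool.Agent.Lib.MP_3d1d78_an.DistP
import Pool.Agent.Lib.MP_3d1d78_an.Smooth

/-!
# A smooth map of finite distortion with inner distortion in `L^p` for all `p < 2`, not discrete

A smooth map `f : ℝ³ → ℝ³` with positive Jacobian almost everywhere, whose inner distortion is in
`L^p` of the cube `(-1, 1)³` for every `p < 2`, and whose zero set is exactly the axis
`x 0 = x 1 = 0`; in particular `f` is not discrete.
-/

set_option autoImplicit false

open MeasureTheory

namespace Pool.Agent.Results.MP_3d1d78_an.CollapsedAxis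

/-- The Jacobian matrix of `f` at `x`. -/
noncomputable def jacobian {n : ℕ} (f : (Fin n → ℝ) → Fin n → ℝ) (x : Fin n → ℝ) :
    Matrix (Fin n) (Fin n) ℝ :=
  Matrix.of fun i j => fderiv ℝ f x (Pi.single j 1) i

/-- The operator norm of a matrix acting on Euclidean space. -/
noncomputable def opNorm {n : ℕ} (A : Matrix (Fin n) (Fin n) ℝ) : ℝ :=
  ‖Matrix.toEuclideanCLM (n := Fin n) (𝕜 := ℝ) A‖

/-- `D` is the weak differential of `f` in `Ω`. -/
def IsWeakDifferential {n : ℕ} (Ω : Set (Fin n → ℝ)) (f : (Fin n → ℝ) → Fin n → ℝ)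
    (D : (Fin n → ℝ) → Matrix (Fin n) (Fin n) ℝ) : Prop :=
  ∀ φ : (Fin n → ℝ) → ℝ, ContDiff ℝ ((⊤ : ℕ∞) : WithTop ℕ∞) φ → HasCompactSupport φ →
    tsupport φ ⊆ Ω → ∀ i j,
      ∫ x in Ω, f x i * fderiv ℝ φ x (Pi.single j 1) = - ∫ x in Ω, D x i j * φ x

/-- `f` is in the Sobolev space `W^{1,p}(Ω, ℝⁿ)`, with weak differential `D`. -/
def MemSobolev {n : ℕ} (Ω : Set (Fin n → ℝ)) (p : ENNReal) (f : (Fin n → ℝ) → Fin n → ℝ)
    (D : (Fin n → ℝ) → Matrix (Fin n) (Fin n) ℝ) : Prop :=
  (∀ i, MemLp (fun x => f x i) p (volume.restrict Ω)) ∧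
    (∀ i j, MemLp (fun x => D x i j) p (volume.restrict Ω)) ∧ IsWeakDifferential Ω f D

/-- Finite distortion: the Jacobian determinant is nonnegative, and the differential vanishes
almost everywhere where the determinant does. -/
def FiniteDistortion {n : ℕ} (Ω : Set (Fin n → ℝ)) (D : (Fin n → ℝ) → Matrix (Fin n) (Fin n) ℝ) :
    Prop :=
  ∀ᵐ x ∂(volume.restrict Ω), 0 ≤ (D x).det ∧ ((D x).det = 0 → D x = 0)

/-- The inner distortion. -/
noncomputable def innerDistortion {n : ℕ} (D : (Fin n → ℝ) → Matrix (Fin n) (Fin n) ℝ)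
    (x : Fin n → ℝ) : ℝ :=
  if 0 < (D x).det then opNorm (D x).adjugate ^ n / (D x).det ^ (n - 1) else 1

/-- `f` is discrete on `Ω`: every point of `Ω` is isolated in its fibre. -/
def Discrete {n : ℕ} (Ω : Set (Fin n → ℝ)) (f : (Fin n → ℝ) → Fin n → ℝ) : Prop :=
  ∀ x ∈ Ω, ∃ ε > 0, ∀ y ∈ Ω, dist y x < ε → f y = f x → y = x

/-- The cube `(-1, 1)³`. -/
def cube : Set (Fin 3 → ℝ) := Set.pi Set.univ fun _ => Set.Ioo (-1 : ℝ) 1

theorem opNorm_sq_le {n : ℕ} (A : Matrix (Fin n) (Fin n) ℝ) :
    opNorm A ^ 2 ≤ ∑ i, ∑ j, (A i j) ^ 2 := by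
  have hN : 0 ≤ ∑ i, ∑ j, (A i j) ^ 2 :=
    Finset.sum_nonneg fun i _ => Finset.sum_nonneg fun j _ => sq_nonneg _
  have h : opNorm A ≤ Real.sqrt (∑ i, ∑ j, (A i j) ^ 2) := by
    unfold opNorm
    refine ContinuousLinearMap.opNorm_le_bound _ (Real.sqrt_nonneg _) fun v => ?_
    rw [EuclideanSpace.norm_eq, EuclideanSpace.norm_eq, ← Real.sqrt_mul hN]
    apply Real.sqrt_le_sqrt
    rw [Finset.sum_mul]
    refine Finset.sum_le_sum fun i _ => ?_
    have h1 : (Matrix.toEuclideanCLM (n := Fin n) (𝕜 := ℝ) A v) i = ∑ j, A i j * v j := by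
      simp [Matrix.mulVec, dotProduct]
    rw [h1, Real.norm_eq_abs, sq_abs]
    refine (Finset.sum_mul_sq_le_sq_mul_sq _ _ _).trans (le_of_eq ?_)
    simp [sq_abs]
  calc opNorm A ^ 2 ≤ (Real.sqrt (∑ i, ∑ j, (A i j) ^ 2)) ^ 2 := by
        have : 0 ≤ opNorm A := norm_nonneg _
        gcongr
    _ = _ := Real.sq_sqrt hN

open Pool.Agent.Lib.MP_3d1d78_an in
theorem jacobian_ff : jacobian ff = DD := by
  funext x
  ext i j
  unfold jacobian
  rw [Matrix.of_apply, (hasFDerivAt_ff_all x).fderiv]
  simp only [ContinuousLinearMap.pi_apply]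
  exact row_single x i j

open Pool.Agent.Lib.MP_3d1d78_an in
theorem innerDistortion_le (x : Fin 3 → ℝ) : innerDistortion DD x ≤ KK x := by
  unfold innerDistortion KK
  split_ifs with h
  · apply div_le_div_of_nonneg_right _ (by positivity)
    have h1 := opNorm_sq_le (DD x).adjugate
    have h0 : 0 ≤ opNorm (DD x).adjugate := norm_nonneg _
    calc opNorm (DD x).adjugate ^ 3
        = (opNorm (DD x).adjugate ^ 2) ^ (((3 : ℕ) : ℝ) / 2) := by
          rw [← Real.rpow_natCast (opNorm (DD x).adjugate) 2, ← Real.rpow_mul h0,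
            ← Real.rpow_natCast]
          norm_num
      _ ≤ _ := Real.rpow_le_rpow (by positivity) h1 (by positivity)
  · exact le_rfl

open Pool.Agent.Lib.MP_3d1d78_an in
theorem continuous_DD : Continuous DD := by
  refine continuous_pi fun i => continuous_pi fun j => ?_
  exact (contDiff_DD 0 i j).continuous

open Pool.Agent.Lib.MP_3d1d78_an in
theorem measurable_innerDistortion : Measurable (innerDistortion DD) := by
  have hdet : Continuous fun x => (DD x).det := continuous_DD.matrix_det
  have hadj : Continuous fun x => opNorm (DD x).adjugate := by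
    have h1 : Continuous fun x => (DD x).adjugate := continuous_DD.matrix_adjugate
    have h2 : Continuous fun A : Matrix (Fin 3) (Fin 3) ℝ =>
        Matrix.toEuclideanCLM (n := Fin 3) (𝕜 := ℝ) A :=
      LinearMap.continuous_of_finiteDimensional
        ({ toFun := fun A => Matrix.toEuclideanCLM (n := Fin 3) (𝕜 := ℝ) A
           map_add' := fun A B => map_add _ A B
           map_smul' := fun c A => map_smul _ c A } :
          Matrix (Fin 3) (Fin 3) ℝ →ₗ[ℝ] (EuclideanSpace ℝ (Fin 3) →L[ℝ] EuclideanSpace ℝ (Fin 3)))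
    exact (h2.comp h1).norm
  unfold innerDistortion
  exact Measurable.ite (measurableSet_lt measurable_const hdet.measurable)
    ((hadj.measurable.pow_const _).div (hdet.measurable.pow_const _)) measurable_const

open Pool.Agent.Lib.MP_3d1d78_an in
theorem ff_eq_zero_iff (x : Fin 3 → ℝ) : ff x = 0 ↔ x 0 = 0 ∧ x 1 = 0 := by
  constructor
  · intro h
    by_contra hne
    have hq : 0 < qq x := by
      unfold qq
      rw [not_and_or] at hne
      rcases hne with h1 | h1
      · have := sq_pos_of_ne_zero h1 |>.le; positivity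
      · have := sq_pos_of_ne_zero h1; positivity
    have hE := (Real.exp_pos (-uu x)).ne'
    have e0 := congrFun h 0
    have e1 := congrFun h 1
    have e2 := congrFun h 2
    simp only [ff, Matrix.cons_val_zero, Matrix.cons_val_one, Matrix.cons_val, Pi.zero_apply,
      mul_eq_zero, hE, false_or] at e0 e1 e2
    have h1 := uu_sq hq
    have h2 := Real.sin_sq_add_cos_sq (x 2 * uu x)
    have h3 := uu_pos hq
    have hs : (x 1 * uu x) = 0 := by
      rcases e0 with e | e
      · rw [e]; simp
      · exact absurd e h3.ne'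
    have hS : Real.sin (x 2 * uu x) = 0 := by simpa using e1
    have hc : (x 0 * uu x) ^ 2 = 1 := by
      have : (x 0 * uu x) ^ 2 + (x 1 * uu x) ^ 2 = 1 := by linear_combination h1
      rw [hs] at this; linarith
    have hC : Real.cos (x 2 * uu x) ^ 2 = 1 := by
      rw [hS] at h2; linarith
    have h5 : (x 0 * uu x * Real.cos (x 2 * uu x)) ^ 2 = 1 := by rw [mul_pow, hc, hC]; norm_num
    have h6 : x 0 * uu x * Real.cos (x 2 * uu x) = 0 := by
      rcases e2 with (e | e) | e
      · rw [e]; simp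
      · exact absurd e h3.ne'
      · rw [e]; simp
    rw [h6] at h5
    norm_num at h5
  · rintro ⟨h0, h1⟩
    funext i
    exact ff_zero_apply (by unfold qq; rw [h0, h1]; ring) i

open Pool.Agent.Lib.MP_3d1d78_an in
/-- There is a smooth map `f : ℝ³ → ℝ³`, not constant, with positive Jacobian determinant almost
everywhere, a mapping of finite distortion in `W^{1,p}` of the cube for every `p`, with inner
distortion in `L^p` of the cube for every `p < 2`, whose zero set is exactly the axis
`x 0 = x 1 = 0`, and which therefore is not discrete. -/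
theorem result : ∃ f : (Fin 3 → ℝ) → Fin 3 → ℝ,
    ContDiff ℝ ((⊤ : ℕ∞) : WithTop ℕ∞) f ∧
    (∀ p : ENNReal, MemSobolev cube p f (jacobian f)) ∧
    (∀ᵐ x, 0 < (jacobian f x).det) ∧
    FiniteDistortion cube (jacobian f) ∧
    (∀ p : ENNReal, p < 2 → MemLp (innerDistortion (jacobian f)) p (volume.restrict cube)) ∧
    (∀ x, f x = 0 ↔ x 0 = 0 ∧ x 1 = 0) ∧
    ¬ (∃ c, ∀ x ∈ cube, f x = c) ∧
    ¬ Discrete cube f := by
  refine ⟨ff, contDiff_ff, ?_, ?_, ?_, ?_, ff_eq_zero_iff, ?_, ?_⟩
  · intro p
    rw [jacobian_ff]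
    exact ⟨fun i => memLp_ff i p, fun i j => memLp_DD i j p, fun φ h1 h2 h3 i j =>
      weak_deriv φ h1 h2 h3 i j⟩
  · rw [jacobian_ff]
    filter_upwards [ae_ne 0] with x hx
    exact det_DD_pos hx
  · rw [jacobian_ff]
    unfold FiniteDistortion
    filter_upwards [ae_restrict_of_ae (ae_ne 0)] with x hx
    have h := det_DD_pos hx
    exact ⟨h.le, fun h0 => absurd h0 h.ne'⟩
  · intro p hp
    rw [jacobian_ff]
    refine (P.memLp_KK_all hp).mono measurable_innerDistortion.aestronglyMeasurable
      (Filter.Eventually.of_forall fun x => ?_)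
    have h0 : 0 ≤ innerDistortion DD x := by
      unfold innerDistortion
      split_ifs with h
      · have : 0 ≤ opNorm (DD x).adjugate := norm_nonneg _
        positivity
      · norm_num
    rw [Real.norm_of_nonneg h0, Real.norm_of_nonneg (KK_nonneg x)]
    exact innerDistortion_le x
  · rintro ⟨c, hc⟩
    have h0 : (0 : Fin 3 → ℝ) ∈ cube := fun i _ => by simp
    have h1 : (![1 / 2, 0, 0] : Fin 3 → ℝ) ∈ cube := by
      intro i _
      fin_cases i <;> norm_num
    have e := (hc _ h1).trans (hc _ h0).symm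
    have e0 : ff 0 = 0 := (ff_eq_zero_iff 0).2 ⟨rfl, rfl⟩
    rw [e0] at e
    have := ((ff_eq_zero_iff _).1 e).1
    norm_num at this
  · intro h2
    obtain ⟨ε, hε, h2⟩ := h2 0 (fun i _ => by simp)
    have hmin : 0 < min (ε / 2) (1 / 2) := by positivity
    have hy : (![0, 0, min (ε / 2) (1 / 2)] : Fin 3 → ℝ) = 0 := by
      apply h2
      · intro i _
        have : min (ε / 2) (1 / 2) ≤ 1 / 2 := min_le_right _ _
        fin_cases i
        · norm_num
        · norm_num
        · constructor
          · change (-1 : ℝ) < min (ε / 2) (1 / 2)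
            linarith
          · change min (ε / 2) (1 / 2) < 1
            linarith
      · rw [dist_pi_lt_iff hε]
        intro i
        have : min (ε / 2) (1 / 2) ≤ ε / 2 := min_le_left _ _
        fin_cases i
        · simpa using hε
        · simpa using hε
        · simp only [Fin.reduceFinMk, Matrix.cons_val, Pi.zero_apply, dist_zero_right]
          rw [Real.norm_of_nonneg hmin.le]
          linarith
      · have e0 : ff 0 = 0 := (ff_eq_zero_iff 0).2 ⟨rfl, rfl⟩
        rw [e0]
        exact (ff_eq_zero_iff _).2 ⟨rfl, rfl⟩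
    have := congrFun hy 2
    simp only [Matrix.cons_val, Pi.zero_apply] at this
    exact hmin.ne' this

end Pool.Agent.Results.MP_3d1d78_an.CollapsedAxis
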